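import Pool.Agent.H70.PNX.Defs
import Pool.Agent.H70.PNT.All

/-!
From the definitions of `H29/PNM/Defs` and `H70/PNT/Defs` to those of `Defs`.
-/

set_option autoImplicit false

namespace Pool.PNX

open Polynomial NumberField IsDedekindDomain

section Selmer

variable {K : Type} [Field K] {L : Type} [Field L]

theorem cpl_iff (O : ValuationSubring L) (ι : K →+* L) : Cpl O ι ↔ PNM.Cpl K L O ι :=
  ⟨fun h => ⟨h.1, h.2.1, h.2.2.1, h.2.2.2⟩, fun h => ⟨h.dvr, h.complete, h.fin, h.dense⟩⟩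

theorem sel_eq (f : K[X]) : sel f = (PNM.Sel f).encard := by
  unfold sel
  congr 1
  ext ξ
  constructor
  · rintro ⟨u, ⟨p, h1, h2, h3, h4⟩, rfl⟩
    exact ⟨u, p, rfl, h1, h2, fun L _ O ι h => h3 L O ι ((cpl_iff O ι).2 h), h4⟩
  · rintro ⟨u, p, rfl, h1, h2, h3, h4⟩
    exact ⟨u, ⟨p, h1, h2, fun L _ O ι h => h3 L O ι ((cpl_iff O ι).1 h), h4⟩, rfl⟩

theorem encard_pow {α : Type} (s : Set α) (r : ℕ) : s.encard = 2 ^ r ↔ s.ncard = 2 ^ r := by
  constructor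
  · intro h
    rw [Set.ncard, h]
    exact_mod_cast ENat.toNat_natCast (2 ^ r)
  · intro h
    have hf : s.Finite := Set.finite_of_ncard_ne_zero (by rw [h]; positivity)
    rw [← hf.cast_ncard_eq, h]
    push_cast
    rfl

theorem sel_pow (f : K[X]) (r : ℕ) : sel f = 2 ^ r ↔ (PNM.Sel f).ncard = 2 ^ r := by
  rw [sel_eq, encard_pow]

theorem sel_one (f : K[X]) : sel f = 1 ↔ (PNM.Sel f).ncard = 1 := by
  simpa using sel_pow f 0

theorem sel_le (f : K[X]) (n : ℕ) :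
    sel f ≤ 2 ^ n ↔ (PNM.Sel f).Finite ∧ (PNM.Sel f).ncard ≤ 2 ^ n := by
  rw [sel_eq]
  have := Set.encard_le_coe_iff_finite_ncard_le (s := PNM.Sel f) (k := 2 ^ n)
  push_cast at this
  exact this

open Classical in
theorem bd_iff (f : K[X]) (n : ℕ) : Bd f n ↔
    (PNM.Sel f).Finite ∧ (PNM.Sel f).ncard ≤ 2 ^ n ∧ AddGroup.FG (PNM.Pts f) ∧
      Module.finrank ℤ (PNM.Pts f) ≤ n ∧
      (n = 0 → Finite (PNM.Pts f) ∧ Odd (Nat.card (PNM.Pts f))) := by
  unfold Bd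
  rw [sel_le]
  exact and_assoc

theorem PR_eq (r : ℕ) : PR r = PNM.PR r := rfl

theorem posL_iff (ε c : ℝ) (Z H : Set K[X]) (h : PNM.PosL ε c Z H) : PosL ε c Z H := by
  obtain ⟨⟨h1, h2, h3, h4, h5⟩, ⟨h6, h7, h8⟩, -⟩ := h
  refine ⟨h1, h2, h3, h4, h5, ?_, ?_, ?_⟩
  · intro B
    simpa only [sel_pow, PR_eq] using h6 B
  · simpa only [sel_pow] using h7
  · simpa only [sel_one] using h8

end Selmer

section Place

variable {K : Type} [Field K] [NumberField K] {E : Type} [Field E] [Algebra K E]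

theorem abv_iff (P : HeightOneSpectrum (𝓞 K)) {L : Type} [Field L] (O : ValuationSubring L)
    (ι : E →+* L) : Abv E (vr K P) O ι ↔ PNT.Abv K P E L O ι := by
  unfold Abv PNT.Abv
  rw [cpl_iff]
  rfl

theorem spl_iff (P : HeightOneSpectrum (𝓞 K)) : Spl E (vr K P) ↔ PNT.Spl K P E := by
  constructor
  · intro h L _ O ι hA
    exact (h L O ι ((abv_iff P O ι).2 hA)).2.2.2
  · intro h L _ O ι hA
    exact ⟨hA.1.1, hA.1.2.1, hA.1.2.2.1, h L O ι ((abv_iff P O ι).1 hA)⟩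

theorem unr_iff (P : HeightOneSpectrum (𝓞 K)) : Unr E (vr K P) ↔ PNT.Unr K P E := by
  have key : ∀ (L : Type) [Field L] (O : ValuationSubring L) (ι : E →+* L),
      Abv E (vr K P) O ι → ∀ x : K,
      (x ∈ (P.valuation K).valuationSubring ↔ ι (algebraMap K E x) ∈ O) ∧
      (x⁻¹ ∈ (P.valuation K).valuationSubring ↔ (ι (algebraMap K E x))⁻¹ ∈ O) := by
    intro L _ O ι hA x
    have h2 : O.comap (ι.comp (algebraMap K E)) = (P.valuation K).valuationSubring := hA.2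
    rw [← h2]
    refine ⟨Iff.rfl, ?_⟩
    rw [← map_inv₀, ← map_inv₀]
    exact Iff.rfl
  constructor
  · intro h L _ O ι hA z hz hz'
    have hA' := (abv_iff P O ι).2 hA
    obtain ⟨x, h1, h2, h3⟩ := h L O ι hA' z hz hz'
    exact ⟨x, (key L O ι hA' x).1.2 h1, fun h4 => h2 ((key L O ι hA' x).2.1 h4), h3⟩
  · intro h L _ O ι hA z hz hz'
    obtain ⟨x, h1, h2, h3⟩ := h L O ι ((abv_iff P O ι).1 hA) z hz hz'
    exact ⟨x, (key L O ι hA x).1.1 h1, fun h4 => h2 ((key L O ι hA x).2.2 h4), h3⟩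

theorem two_iff : Two (𝓞 K) K E ↔ PNT.Two K E := by
  unfold Two PNT.Two
  simp only [spl_iff]

theorem ext_iff (T : Finset (HeightOneSpectrum (𝓞 K))) (f : (𝓞 K)[X]) :
    Ext K E T f ↔ PNT.Ext K T f E := by
  unfold Ext PNT.Ext
  rw [two_iff]
  simp only [spl_iff, unr_iff]
  rfl

end Place

end Pool.PNX
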