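import Pool.Agent.H70.PNX.Conv

/-!
From the definitions of `H29/PNM/Defs` and `H70/PNT/Defs` to those of `Defs`: the families.
-/

set_option autoImplicit false
set_option linter.unusedSectionVars false

namespace Pool.PNX

open Polynomial NumberField IsDedekindDomain

section Self

variable (K : Type) [Field K] [NumberField K]

theorem spl_self (P : HeightOneSpectrum (𝓞 K)) : PNT.Spl K P K := by
  intro L _ O ι hA z a ha
  exact hA.1.dense z a ha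

theorem unr_self (P : HeightOneSpectrum (𝓞 K)) : PNT.Unr K P K := by
  intro L _ O ι hA z hz hz'
  have hz0 : z ≠ 0 := by
    rintro rfl
    exact hz' (by simp [O.zero_mem])
  obtain ⟨x, hx⟩ := hA.1.dense z (z ^ 2) (pow_ne_zero 2 hz0)
  set w : L := (z - ι x) / z ^ 2 with hw
  have h1 : ι x = z * (1 - z * w) := by
    rw [hw]
    field_simp
    ring
  have hvz : O.valuation z < 1 :=
    O.mem_nonunits_iff_or.2 (Or.inr hz')
  have hvw : O.valuation w ≤ 1 := (O.valuation_le_one_iff w).2 hx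
  have hvzw : O.valuation (z * w) < 1 := by
    rw [map_mul]
    exact mul_lt_one_of_lt_of_le hvz hvw
  have hv1 : O.valuation (1 - z * w) = 1 := O.valuation.map_one_sub_of_lt hvzw
  have hne : (1 - z * w) ≠ 0 := by
    intro h
    rw [h, map_zero] at hv1
    exact zero_ne_one hv1
  have hvx : O.valuation (ι x) < 1 := by
    rw [h1, map_mul, hv1, mul_one]
    exact hvz
  have h2 : ι x ∈ O := (O.valuation_le_one_iff _).1 hvx.le
  have h3 : ¬ (ι x)⁻¹ ∈ O := by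
    intro h
    rcases O.mem_nonunits_iff_or.1 (show ι x ∈ O.nonunits from hvx) with h4 | h4
    · rw [h1] at h4
      exact (mul_ne_zero hz0 hne) h4
    · exact h4 h
  have h4 : z / ι x ∈ O := by
    rw [h1, ← O.valuation_le_one_iff, map_div₀, map_mul, hv1, mul_one, div_self]
    exact fun h => hz0 (by simpa using h)
  have hV : O.comap (ι.comp (algebraMap K K)) = (P.valuation K).valuationSubring := hA.2
  refine ⟨x, ?_, ?_, h4⟩
  · rw [← hV]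
    exact h2
  · rw [← hV]
    intro h
    apply h3
    rw [← map_inv₀]
    exact h

theorem two_self : PNT.Two K K :=
  ⟨inferInstance, inferInstance, ⟨0, by simp⟩, fun P _ => spl_self K P⟩

theorem ext_self (T : Finset (HeightOneSpectrum (𝓞 K))) (f : (𝓞 K)[X]) : PNT.Ext K T f K :=
  ⟨two_self K, fun P _ => spl_self K P, fun P => Or.inl (unr_self K P)⟩

variable {K}

/-- The bounds over an extension. -/
theorem rk_bd {q : K[X]} {r : ℕ} {E : Type} [Field E] [Algebra K E] [FiniteDimensional K E]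
    (h : PNT.Rk q r E) : Bd (q.map (algebraMap K E)) (r * Module.finrank K E) := by
  rw [bd_iff]
  obtain ⟨h1, h2, h3, h4, h5⟩ := h
  refine ⟨h1, h2, h3, h4, fun h => h5 ?_⟩
  rcases Nat.mul_eq_zero.1 h with h | h
  · exact h
  · exact absurd h (Module.finrank_pos).ne'

/-- The bounds over `K`. -/
theorem rk_self {q : K[X]} {r : ℕ} (h : PNT.Rk q r K) : Bd q r := by
  have := rk_bd h
  rwa [Algebra.algebraMap_self, Polynomial.map_id, Module.finrank_self, mul_one] at this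

/-- The bounds over all extensions. -/
theorem ab_of {T : Finset (HeightOneSpectrum (𝓞 K))} {f : (𝓞 K)[X]} {q : K[X]} {r : ℕ}
    (h : ∀ (E : Type) [Field E] [Algebra K E], PNT.Ext K T f E → PNT.Rk q r E) : Ab K T f q r := by
  refine ⟨rk_self (h K (ext_self K T f)), fun E _ _ hE => ?_⟩
  have hE' := (ext_iff T f).1 hE
  have := hE'.1.1
  exact rk_bd (h E hE')

theorem good_of {E : Type} [Field E] [Algebra K E] [FiniteDimensional K E]
    {T : Finset (HeightOneSpectrum (𝓞 K))} {q : K[X]} {r : ℕ}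
    (h : PNT.Good K r T E q) : Good K E r T q := by
  obtain ⟨h1, h2, -, -, -, h6, h7⟩ := h
  exact ⟨h1, (sel_pow q r).2 h2, rk_bd h6, fun f hf => ab_of (h7 f hf)⟩

theorem all_eq (Y : ℝ) : All (𝓞 K) K Y = PNM.All K Y := rfl

theorem ranks_of (h : PNT.Ranks K) : Ranks (𝓞 K) K := by
  intro r E _ _ hE
  have hE' := two_iff.1 hE
  have := hE'.1
  obtain ⟨T, h1, δ, h2, Y₀, h3⟩ := h r E hE'
  refine ⟨T, fun P hP => (spl_iff P).2 (h1 P hP), δ, h2, Y₀, fun Y hY => ?_⟩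
  obtain ⟨h4, h5, h6, h7⟩ := h3 Y hY
  refine ⟨h4, h5, h6.trans ?_, h7.trans ?_⟩
  · have h8 : {q | q ∈ PNM.All K Y ∧ PNT.Good K r T E q} ⊆
        {q | q ∈ All (𝓞 K) K Y ∧ Good K E r T q} := fun q hq => ⟨hq.1, good_of hq.2⟩
    exact_mod_cast Set.ncard_le_ncard h8 (h4.subset fun q hq => hq.1)
  · have h8 : {q | (q ∈ PNM.All K Y ∧ q.coeff 2 = 0) ∧ PNT.Good K r T E q} ⊆
        {q | (q ∈ All (𝓞 K) K Y ∧ q.coeff 2 = 0) ∧ Good K E r T q} :=
      fun q hq => ⟨hq.1, good_of hq.2⟩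
    exact_mod_cast Set.ncard_le_ncard h8 (h4.subset fun q hq => hq.1.1)

end Self

section Family

variable {K : Type} [Field K] [NumberField K]

/-- The data `D` and the reductions `g` belong together. -/
def Rel (D : PNM.Data K) (g : HeightOneSpectrum (𝓞 K) → (𝓞 K)[X]) : Prop :=
  (∀ P ∈ D.T, g P = (X - C (D.c P)) * D.γ P) ∧ ∀ P ∈ D.T', g P = D.ρ P

theorem mem_six (P : HeightOneSpectrum (𝓞 K)) :
    (6 : 𝓞 K) ∈ P.asIdeal ↔ (2 : 𝓞 K) ∈ P.asIdeal ∨ (3 : 𝓞 K) ∈ P.asIdeal := by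
  rw [show (6 : 𝓞 K) = 2 * 3 by norm_num]
  exact P.isPrime.mul_mem_iff_mem_or_mem

/-- From the new data to the old ones. -/
theorem exists_data {T T' : Finset (HeightOneSpectrum (𝓞 K))}
    {g : HeightOneSpectrum (𝓞 K) → (𝓞 K)[X]} (h : Ok T T' g) :
    ∃ D : PNM.Data K, D.T = T ∧ D.T' = T' ∧ D.Ok ∧ Rel D g := by
  classical
  obtain ⟨h1, h2, h3⟩ := h
  choose h0 c γ hγ using h1
  refine ⟨⟨T, T', fun P => if hP : P ∈ T then c P hP else 0,
    fun P => if hP : P ∈ T then γ P hP else 0, g⟩, rfl, rfl, ⟨?_, ?_, ?_, ?_⟩, ?_, ?_⟩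
  · rw [Finset.disjoint_left]
    exact fun P hP => h0 P hP
  · intro P hP
    have hP' : P ∈ T := hP
    have := hγ P hP'
    simp only [hP', dif_pos]
    exact ⟨this.1, this.2.1, this.2.2.1⟩
  · intro P hP
    exact h2 P hP
  · intro P hP
    exact h3 P ((mem_six P).2 hP)
  · intro P hP
    have hP' : P ∈ T := hP
    simp only [hP', dif_pos]
    exact (hγ P hP').2.2.2
  · intro P _
    rfl

/-- From the old data to the new ones. -/
theorem exists_g (D : PNM.Data K) (h : D.Ok) :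
    ∃ g : HeightOneSpectrum (𝓞 K) → (𝓞 K)[X], Ok D.T D.T' g ∧ Rel D g := by
  classical
  obtain ⟨h1, h2, h3, h4⟩ := h
  rw [Finset.disjoint_left] at h1
  have hg1 : ∀ P ∈ D.T, (if P ∈ D.T then (X - C (D.c P)) * D.γ P else D.ρ P) =
      (X - C (D.c P)) * D.γ P := fun P hP => if_pos hP
  have hg2 : ∀ P ∈ D.T', (if P ∈ D.T then (X - C (D.c P)) * D.γ P else D.ρ P) = D.ρ P :=
    fun P hP => if_neg fun hP' => h1 hP' hP
  refine ⟨fun P => if P ∈ D.T then (X - C (D.c P)) * D.γ P else D.ρ P, ⟨?_, ?_, ?_⟩, hg1, hg2⟩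
  · intro P hP
    refine ⟨h1 hP, D.c P, D.γ P, (h2 P hP).1, (h2 P hP).2.1, (h2 P hP).2.2, hg1 P hP⟩
  · intro P hP
    have e := hg2 P hP
    dsimp only
    rw [e]
    exact ⟨(h3 P hP).1, (h3 P hP).2.1, (h3 P hP).2.2⟩
  · intro P hP
    exact h4 P ((mem_six P).1 hP)

theorem tr0_iff {D : PNM.Data K} {g : HeightOneSpectrum (𝓞 K) → (𝓞 K)[X]} (h : Rel D g) :
    Tr0 D.T D.T' g ↔ D.Tr0 := by
  constructor
  · intro h1
    refine ⟨fun P hP => ?_, fun P hP => ?_⟩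
    · rw [← h.1 P hP]
      exact h1 P (Or.inl hP)
    · rw [← h.2 P hP]
      exact h1 P (Or.inr hP)
  · rintro ⟨h1, h2⟩ P (hP | hP)
    · rw [h.1 P hP]
      exact h1 P hP
    · rw [h.2 P hP]
      exact h2 P hP

theorem smooth_iff (f : (𝓞 K)[X]) : Smooth f ↔ PNM.Smooth f := by
  constructor
  · rintro h P ⟨γ, a, b, c, h1, h2, h3, h4, h5⟩
    exact h P γ a b c h1 h2 h3 h4 h5
  · intro h P γ a b c h1 h2 h3 h4 h5
    exact h P ⟨γ, a, b, c, h1, h2, h3, h4, h5⟩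

theorem zero_bx {ρ : ℝ} (h : 0 ≤ ρ) : (0 : 𝓞 K) ∈ PNM.Bx K ρ := by
  intro σ
  simpa using h

theorem box_iff {f : (𝓞 K)[X]} (hm : f.Monic) (hd : f.natDegree = 3) (Y : ℕ) {t : ℝ} (ht : 0 < t) :
    (∀ i ≤ 3, (f - (X ^ 3 - C ((Y : 𝓞 K) ^ 3))).coeff (3 - i) ∈ Bx K ((Y : ℝ) ^ i / t)) ↔
    (f.coeff 2 ∈ PNM.Bx K ((Y : ℝ) / t) ∧ f.coeff 1 ∈ PNM.Bx K ((Y : ℝ) ^ 2 / t) ∧
      f.coeff 0 + (Y : 𝓞 K) ^ 3 ∈ PNM.Bx K ((Y : ℝ) ^ 3 / t)) := by
  generalize (Y : 𝓞 K) ^ 3 = y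
  have e3 : (f - (X ^ 3 - C y)).coeff 3 = 0 := by
    have : f.coeff 3 = 1 := by rw [← hd]; exact hm
    simp [this, coeff_X_pow]
  have e2 : (f - (X ^ 3 - C y)).coeff 2 = f.coeff 2 := by
    simp [coeff_X_pow]
  have e1 : (f - (X ^ 3 - C y)).coeff 1 = f.coeff 1 := by
    simp [coeff_X_pow]
  have e0 : (f - (X ^ 3 - C y)).coeff 0 = f.coeff 0 + y := by
    simp [coeff_X_pow]
  constructor
  · intro h
    refine ⟨?_, ?_, ?_⟩
    · have := h 1 (by norm_num)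
      rw [show 3 - 1 = 2 from rfl, e2, pow_one] at this
      exact this
    · have := h 2 (by norm_num)
      rw [show 3 - 2 = 1 from rfl, e1] at this
      exact this
    · have := h 3 (by norm_num)
      rw [show 3 - 3 = 0 from rfl, e0] at this
      exact this
  · rintro ⟨h1, h2, h3⟩ i hi
    interval_cases i
    · rw [show 3 - 0 = 3 from rfl, e3]
      exact zero_bx (by positivity)
    · rw [show 3 - 1 = 2 from rfl, e2, pow_one]
      exact h1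
    · rw [show 3 - 2 = 1 from rfl, e1]
      exact h2
    · rw [show 3 - 3 = 0 from rfl, e0]
      exact h3

theorem zer_iff {D : PNM.Data K} {g : HeightOneSpectrum (𝓞 K) → (𝓞 K)[X]} (h : Rel D g)
    (f : (𝓞 K)[X]) :
    (∀ P : HeightOneSpectrum (𝓞 K), P ∈ D.T ∨ P ∈ D.T' → Zer P.asIdeal (f - g P)) ↔
    ((∀ P ∈ D.T, PNM.Zer P.asIdeal (f - (X - C (D.c P)) * D.γ P)) ∧
      ∀ P ∈ D.T', PNM.Zer P.asIdeal (f - D.ρ P)) := by
  constructor
  · intro h1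
    refine ⟨fun P hP => ?_, fun P hP => ?_⟩
    · rw [← h.1 P hP]
      exact h1 P (Or.inl hP)
    · rw [← h.2 P hP]
      exact h1 P (Or.inr hP)
  · rintro ⟨h1, h2⟩ P (hP | hP)
    · rw [h.1 P hP]
      exact h1 P hP
    · rw [h.2 P hP]
      exact h2 P hP

theorem fam_eq {D : PNM.Data K} {g : HeightOneSpectrum (𝓞 K) → (𝓞 K)[X]} (h : Rel D g) (Y : ℕ) :
    Fam K D.T D.T' g 100 Y = PNM.Fam D Y := by
  ext f
  constructor
  · rintro ⟨h1, h2, h3, h4, h5⟩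
    obtain ⟨h6, h7, h8⟩ := (box_iff h1 h2 Y (by norm_num)).1 h3
    exact ⟨⟨h1, h2, ⟨h6, h7, h8⟩, (zer_iff h f).1 h4⟩, (smooth_iff f).1 h5⟩
  · rintro ⟨⟨h1, h2, ⟨h6, h7, h8⟩, h4⟩, h5⟩
    exact ⟨h1, h2, (box_iff h1 h2 Y (by norm_num)).2 ⟨h6, h7, h8⟩, (zer_iff h f).2 h4,
      (smooth_iff f).2 h5⟩

theorem bx_mono {ρ ρ' : ℝ} (h : ρ ≤ ρ') {a : 𝓞 K} (ha : a ∈ PNM.Bx K ρ) : a ∈ PNM.Bx K ρ' :=
  fun σ => (ha σ).trans h

theorem famS_eq {D : PNM.Data K} {g : HeightOneSpectrum (𝓞 K) → (𝓞 K)[X]} (h : Rel D g) (Y : ℕ) :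
    {f | f ∈ Fam K D.T D.T' g 200 Y ∧ f.coeff 2 = 0} = PNM.FamS D Y := by
  ext f
  constructor
  · rintro ⟨⟨h1, h2, h3, h4, h5⟩, h0⟩
    obtain ⟨h6, h7, h8⟩ := (box_iff h1 h2 Y (by norm_num)).1 h3
    refine ⟨⟨⟨h1, h2, ⟨?_, ?_, ?_⟩, (zer_iff h f).1 h4⟩, (smooth_iff f).1 h5⟩, h0, h7, h8⟩
    · refine bx_mono ?_ h6
      have : (0 : ℝ) ≤ Y := Nat.cast_nonneg Y
      linarith
    · refine bx_mono ?_ h7
      have : (0 : ℝ) ≤ (Y : ℝ) ^ 2 := by positivity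
      linarith
    · refine bx_mono ?_ h8
      have : (0 : ℝ) ≤ (Y : ℝ) ^ 3 := by positivity
      linarith
  · rintro ⟨⟨⟨h1, h2, -, h4⟩, h5⟩, h0, h7, h8⟩
    refine ⟨⟨h1, h2, (box_iff h1 h2 Y (by norm_num)).2 ⟨?_, h7, h8⟩, (zer_iff h f).2 h4,
      (smooth_iff f).2 h5⟩, h0⟩
    rw [h0]
    exact zero_bx (by positivity)

theorem tws_iff {D : PNM.Data K} (h : D.Ok) (d : Finset (HeightOneSpectrum (𝓞 K)) → 𝓞 K) :
    Tws D.T D.T' d ↔ PNM.Tws D d := by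
  have h1 := Finset.disjoint_left.1 h.1
  constructor
  · intro h2 S hS
    obtain ⟨h3, h4, h5⟩ := h2 S hS
    exact ⟨⟨h3, fun P hP => (h5 P (h1 (hS hP))).1 hP, fun P hP hPS => (h5 P (h1 hP)).2 hPS,
      fun P hP hP' => (h5 P hP').2 fun hPS => hP (hS hPS)⟩, h4⟩
  · intro h2 S hS
    obtain ⟨⟨h3, h4, h5, h6⟩, h7⟩ := h2 S hS
    refine ⟨h3, h7, fun P hP => ⟨fun hPS => h4 P hPS, fun hPS => ?_⟩⟩
    by_cases hPT : P ∈ D.T
    · exact h5 P hPT hPS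
    · exact h6 P hPT hP

theorem half_iff {T : Finset (HeightOneSpectrum (𝓞 K))} (h : Odd T.card)
    (S : Finset (HeightOneSpectrum (𝓞 K))) : Half T S ↔ S ∈ PNM.Sl T := by
  unfold Half PNM.Sl
  rw [Finset.mem_filter, Finset.mem_powerset]
  obtain ⟨j, hj⟩ := h
  constructor
  · rintro ⟨h1, h2⟩
    exact ⟨h1, by omega⟩
  · rintro ⟨h1, h2⟩
    exact ⟨h1, by omega⟩

theorem tw_eq {D : PNM.Data K} (h : Odd D.T.card) (d : Finset (HeightOneSpectrum (𝓞 K)) → 𝓞 K)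
    (A : Set (𝓞 K)[X]) : Tw K D.T d A = PNM.Tw D d A := by
  ext q
  unfold Tw PNM.Tw
  simp only [half_iff h]
  rfl

theorem lawT_of {D : PNM.Data K} (h : Odd D.T.card) {ε : ℝ}
    {d : Finset (HeightOneSpectrum (𝓞 K)) → 𝓞 K} {f : (𝓞 K)[X]} (h1 : PNM.LawT ε D d f) :
    LawT K ε D.T d f := by
  have hc : {S | Half D.T S}.ncard = (PNM.Sl D.T).card := by
    rw [← Set.ncard_coe_finset]
    congr 1
    ext S
    exact half_iff h S
  obtain ⟨h2, h3, h4⟩ := h1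
  refine ⟨fun S hS => ?_, ?_, ?_⟩
  · obtain ⟨-, r, hr⟩ := h2 S ((half_iff h S).1 hS)
    exact ⟨r, (sel_pow _ r).2 hr⟩
  · rw [hc, ← h3]
    simp only [sel_pow, half_iff h]
    rfl
  · intro B
    have := h4 B
    rw [hc]
    simp only [sel_pow, PR_eq, Set.mem_ofPred_eq, half_iff h]
    exact this

theorem bx_fin (ρ : ℝ) : (PNM.Bx K ρ).Finite := by
  refine Set.Finite.of_finite_image ((Embeddings.finite_of_norm_le K ℂ ρ).subset ?_)
    (NumberField.RingOfIntegers.coe_injective (K := K)).injOn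
  rintro _ ⟨a, ha, rfl⟩
  exact ⟨a.2, fun φ => ha φ⟩

theorem fam_fin (D : PNM.Data K) (Y : ℕ) : (PNM.Fam D Y).Finite := by
  have h := (bx_fin (K := K) ((Y : ℝ) / 100)).prod
    ((bx_fin (K := K) ((Y : ℝ) ^ 2 / 100)).prod (bx_fin (K := K) ((Y : ℝ) ^ 3 / 100)))
  refine Set.Finite.of_finite_image (f := fun f : (𝓞 K)[X] =>
    (f.coeff 2, f.coeff 1, f.coeff 0 + (Y : 𝓞 K) ^ 3)) (h.subset ?_) ?_
  · rintro _ ⟨f, ⟨⟨-, -, ⟨h1, h2, h3⟩, -⟩, -⟩, rfl⟩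
    exact ⟨h1, h2, h3⟩
  · rintro f ⟨⟨hm, hd, -⟩, -⟩ f' ⟨⟨hm', hd', -⟩, -⟩ hff
    simp only [Prod.mk.injEq, add_left_inj] at hff
    obtain ⟨h2, h1, h0⟩ := hff
    refine Polynomial.ext fun i => ?_
    rcases lt_trichotomy i 3 with hi | rfl | hi
    · interval_cases i
      · exact h0
      · exact h1
      · exact h2
    · have e : f.coeff 3 = 1 := by rw [← hd]; exact hm
      have e' : f'.coeff 3 = 1 := by rw [← hd']; exact hm'
      rw [e, e']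
    · rw [coeff_eq_zero_of_natDegree_lt (by omega), coeff_eq_zero_of_natDegree_lt (by omega)]

theorem law_of {D : PNM.Data K} {g : HeightOneSpectrum (𝓞 K) → (𝓞 K)[X]} (hg : Rel D g)
    (h : Odd D.T.card) {ε : ℝ} {d : Finset (HeightOneSpectrum (𝓞 K)) → 𝓞 K} {E : ℕ}
    (h1 : PNM.Law ε D d E) : Law K ε D.T D.T' g d E := by
  obtain ⟨c, hc, Y₀, h2⟩ := h1
  refine ⟨c, hc, Y₀, fun Y hY => ?_⟩
  obtain ⟨h3, h4, h5⟩ := h2 Y hY
  rw [fam_eq hg, famS_eq hg, tw_eq h, tw_eq h, tr0_iff hg]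
  refine ⟨posL_iff _ _ _ _ h3, le_trans ?_ h4, fun h6 => posL_iff _ _ _ _ (h5 h6)⟩
  have h8 : {f | f ∈ PNM.Fam D Y ∧ ¬ LawT K ε D.T d f} ⊆
      {f | f ∈ PNM.Fam D Y ∧ ¬ PNM.LawT ε D d f} := fun f hf => ⟨hf.1, fun h7 => hf.2 (lawT_of h h7)⟩
  exact_mod_cast Set.ncard_le_ncard h8 ((fam_fin D Y).subset fun q hq => hq.1)

theorem main_of (h : PNT.Main K) : Main (𝓞 K) K := by
  obtain ⟨A, hA⟩ := h
  refine ⟨A, fun T' hT' ε hε => ?_⟩
  obtain ⟨k₀, hk₀⟩ := hA T' hT' ε hε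
  refine ⟨k₀, fun k hk hkk => ?_⟩
  obtain ⟨b, hb1, hb2⟩ := hk₀ k hk hkk
  refine ⟨b, ?_, ?_⟩
  · intro E _ _ hE hU
    obtain ⟨D, h1, h2, h3, h4, h5⟩ := hb1 E (two_iff.1 hE) fun P hP => (unr_iff P).1 (hU P hP)
    obtain ⟨g, hg, hR⟩ := exists_g D h1
    subst h2
    exact ⟨D.T, g, hg, h3, fun P hP => ⟨(h4 P hP).1, (spl_iff P).2 (h4 P hP).2⟩,
      (tr0_iff hR).2 h5⟩
  · intro T g hOk hT hbT
    obtain ⟨D, h1, h2, h3, hR⟩ := exists_data hOk
    subst h1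
    subst h2
    have hodd : Odd D.T.card := by
      rw [hT]
      exact hk
    obtain ⟨h4, h5⟩ := hb2 D h3 rfl hT hbT
    refine ⟨?_, ?_⟩
    · obtain ⟨d, hd⟩ := h4
      exact ⟨d, (tws_iff h3 d).2 hd⟩
    · intro d hd
      obtain ⟨h6, h7⟩ := h5 d ((tws_iff h3 d).1 hd)
      refine ⟨?_, ?_⟩
      · intro Y hY f hf S hS r hr
        rw [fam_eq hR] at hf
        exact ab_of (h6 Y hY f hf S hS r ((sel_pow _ r).1 hr))
      · intro E hE hB
        exact law_of hR hodd (h7 E hE hB)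

variable (K) in
theorem main_thm : Main (𝓞 K) K ∧ Ranks (𝓞 K) K :=
  ⟨main_of (PNT.main_thm K).1, ranks_of (PNT.main_thm K).2⟩

end Family

end Pool.PNX
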