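import Mathlib

/-!
# The Poonen-Rains law for the 2-Selmer groups of elliptic curves over a number field: definitions

`R` is the ring of integers of the number field `K`.  The elliptic curve `E_f` over `K` is
`y² = f(x)`, `f = x³ + a_1 x² + a_2 x + a_3`, `a_i = f.coeff (3 - i)`.
-/

set_option autoImplicit false

namespace Pool.PNX

open Polynomial NumberField IsDedekindDomain

/-! ### The 2-Selmer group -/

section Selmer

variable {K : Type} [Field K] {L : Type} [Field L]

/-- `L`, with the valuation ring `O`, is a completion of `K` at a finite place: it is a complete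
discretely valued field with finite residue field and `K` is dense in it. -/
def Cpl (O : ValuationSubring L) (ι : K →+* L) : Prop :=
  IsDiscreteValuationRing O ∧ IsAdicComplete (IsLocalRing.maximalIdeal O) O ∧
    Finite (IsLocalRing.ResidueField O) ∧ ∀ z a : L, a ≠ 0 → ∃ x : K, (z - ι x) / a ∈ O

/-- Over the field `L` the class of `p` modulo squares is the class of `(-1)^(deg u) u` for a monic
`u`, prime to `f`, such that `f` is a square modulo `u`: it is the image of the class of the divisor
`u = 0, y = w` of the curve `y² = f(x)` under the map `x - X`. -/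
def LocSol (ι : K →+* L) (f p : K[X]) : Prop :=
  ∃ u w s : L[X], u.Monic ∧ IsCoprime u (f.map ι) ∧ u ∣ w ^ 2 - f.map ι ∧
    f.map ι ∣ (-1) ^ u.natDegree * u - p.map ι * s ^ 2

/-- The unit `u` of `K[X]/(f)` represents a class in the 2-Selmer group of `y² = f(x)`: its norm is a
square and over every completion of `K` it is a class of a divisor.  (The completions are those at
the finite places and, for every embedding `σ` in the real numbers, the field of real numbers; over
the complex numbers there is no condition.) -/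
def InSel (f : K[X]) (u : (AdjoinRoot f)ˣ) : Prop :=
  ∃ p : K[X], AdjoinRoot.mk f p = u ∧ IsSquare (Algebra.norm K (AdjoinRoot.mk f p)) ∧
    (∀ (L : Type) [Field L] (O : ValuationSubring L) (ι : K →+* L), Cpl O ι → LocSol ι f p) ∧
    ∀ σ : K →+* ℝ, LocSol σ f p

/-- The number of elements of the 2-Selmer group: the number of classes of these units modulo
squares. -/
noncomputable def sel (f : K[X]) : ℕ∞ :=
  ((QuotientGroup.mk (s := (powMonoidHom 2 : (AdjoinRoot f)ˣ →* (AdjoinRoot f)ˣ).range)) ''
    {u | InSel f u}).encard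

open Classical in
/-- The group of points is finitely generated of rank at most `n`, and finite of odd order if
`n = 0`. -/
def Rank (W : WeierstrassCurve.Affine K) (n : ℕ) : Prop :=
  AddGroup.FG W.Point ∧ Module.finrank ℤ W.Point ≤ n ∧ (n = 0 → Finite W.Point ∧ Odd (Nat.card W.Point))

/-- The 2-Selmer group of `y² = f(x)` has at most `2^n` elements and the rank is at most `n`. -/
def Bd (f : K[X]) (n : ℕ) : Prop :=
  sel f ≤ 2 ^ n ∧ Rank (WeierstrassCurve.mk 0 (f.coeff 2) 0 (f.coeff 1) (f.coeff 0)) n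

/-- The Poonen-Rains law for the prime `2`: `∏ (1 + 2^(-j))⁻¹ (j ≥ 0)` times
`∏ 2 / (2^j - 1) (1 ≤ j ≤ r)`. -/
noncomputable def PR (r : ℕ) : ℝ :=
  (∏' j : ℕ, (1 + (1 / 2 : ℝ) ^ j))⁻¹ * ∏ j ∈ Finset.range r, 2 / ((2 : ℝ) ^ (j + 1) - 1)

/-- The distribution of the values `s a`, `a ∈ Z`, is the law of Poonen and Rains up to `ε`. -/
def Dist (ε : ℝ) {α : Type} (Z : Set α) (s : α → ℕ∞) : Prop :=
  ∀ B : ℕ, ∑ r ∈ Finset.range B, |({a | a ∈ Z ∧ s a = 2 ^ r}.ncard : ℝ) / Z.ncard - PR r| ≤ ε

/-- The set `Z` consists of irreducible polynomials and has density at least `c` in the finite,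
nonempty set `H`; the distribution of the 2-Selmer groups of its elements is the law of Poonen and
Rains, the 2-Selmer rank is even for one half of them, and the 2-Selmer group is trivial for 20.97
per cent, up to `ε`. -/
def PosL (ε c : ℝ) (Z H : Set K[X]) : Prop :=
  Z ⊆ H ∧ H.Finite ∧ 0 < H.ncard ∧ c * H.ncard ≤ Z.ncard ∧ (∀ f ∈ Z, Irreducible f) ∧
  Dist ε Z sel ∧
  |({f | f ∈ Z ∧ ∃ r : ℕ, Even r ∧ sel f = 2 ^ r}.ncard : ℝ) / Z.ncard - 1 / 2| ≤ ε ∧
  (0.2097 - ε) * Z.ncard ≤ {f | f ∈ Z ∧ sel f = 1}.ncard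

end Selmer

/-! ### Polynomials modulo primes -/

section Ring

variable {R : Type} [CommRing R]

/-- `p` is zero modulo the ideal `I`. -/
def Zer (I : Ideal R) (p : R[X]) : Prop := ∀ i, p.coeff i ∈ I

/-- `p` is irreducible modulo the ideal `I`. -/
def Irr (I : Ideal R) (p : R[X]) : Prop := Irreducible (p.map (Ideal.Quotient.mk I))

/-- The scheme `f(x) = 0` over `R` is regular: for no prime `P` and no polynomial `γ` which is
irreducible modulo `P`, `f` is in the square of the ideal generated by `P` and `γ`. -/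
def Smooth (f : R[X]) : Prop :=
  ∀ (P : HeightOneSpectrum R) (γ a b c : R[X]), γ.Monic → Irr P.asIdeal γ → Zer P.asIdeal b →
    Zer (P.asIdeal ^ 2) c → f ≠ γ ^ 2 * a + γ * b + c

/-- The norm of `P`. -/
noncomputable def Nm (P : HeightOneSpectrum R) : ℕ := Nat.card (R ⧸ P.asIdeal)

/-- Local data: disjoint finite sets `T` and `T'` of primes, and for every prime `P` of `T ∪ T'` a
polynomial `g P`, which is linear times irreducible of degree two modulo `P` for `P` in `T`,
irreducible of degree three for `P` in `T'`.  The primes which divide `6` are in `T'`. -/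
def Ok (T T' : Finset (HeightOneSpectrum R)) (g : HeightOneSpectrum R → R[X]) : Prop :=
  (∀ P ∈ T, P ∉ T' ∧ ∃ (c : R) (γ : R[X]), γ.Monic ∧ γ.natDegree = 2 ∧ Irr P.asIdeal γ ∧
    g P = (X - C c) * γ) ∧
  (∀ P ∈ T', (g P).Monic ∧ (g P).natDegree = 3 ∧ Irr P.asIdeal (g P)) ∧
  ∀ P : HeightOneSpectrum R, (6 : R) ∈ P.asIdeal → P ∈ T'

/-- The data have trace zero. -/
def Tr0 (T T' : Finset (HeightOneSpectrum R)) (g : HeightOneSpectrum R → R[X]) : Prop :=
  ∀ P : HeightOneSpectrum R, P ∈ T ∨ P ∈ T' → (g P).coeff 2 ∈ P.asIdeal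

/-- The elements `d S`, `S ⊆ T`, may be used for the twists: `d S` is congruent to `1` modulo `8`,
has order one at the primes of `S` and order zero at all other primes outside `T'`. -/
def Tws (T T' : Finset (HeightOneSpectrum R)) (d : Finset (HeightOneSpectrum R) → R) : Prop :=
  ∀ S ⊆ T, d S ≠ 0 ∧ (∃ e : R, d S = 1 + 8 * e) ∧ ∀ P ∉ T',
    (P ∈ S → d S ∈ P.asIdeal ∧ d S ∉ P.asIdeal ^ 2) ∧ (P ∉ S → d S ∉ P.asIdeal)

/-- `S` is a set of `j` or `j + 1` elements of `T`, where `#T = 2 j + 1`. -/
def Half (T S : Finset (HeightOneSpectrum R)) : Prop :=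
  S ⊆ T ∧ (T.card = 2 * S.card + 1 ∨ T.card + 1 = 2 * S.card)

variable (K : Type) [Field K] [Algebra R K]

/-- The elements of `R` with all conjugates of absolute value at most `ρ`. -/
def Bx (ρ : ℝ) : Set R := {a | ∀ σ : K →+* ℂ, ‖σ (algebraMap R K a)‖ ≤ ρ}

variable (R) in
/-- All curves of height at most `Y`: the monic cubic polynomials over `R` such that `|a_i| ≤ Y^i`
at all archimedean places, as polynomials over `K`. -/
def All (Y : ℝ) : Set K[X] :=
  {q | ∃ f : R[X], f.Monic ∧ f.natDegree = 3 ∧ (∀ i ≤ 3, f.coeff (3 - i) ∈ Bx K (Y ^ i)) ∧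
    q = f.map (algebraMap R K)}

/-- The family: all monic cubic polynomials `f` over `R` which are regular, congruent to `g P` modulo
the primes `P` of `T` and `T'`, and close to `x³ - Y³` at all archimedean places. -/
def Fam (T T' : Finset (HeightOneSpectrum R)) (g : HeightOneSpectrum R → R[X]) (t : ℝ) (Y : ℕ) :
    Set R[X] :=
  {f | f.Monic ∧ f.natDegree = 3 ∧
    (∀ i ≤ 3, (f - (X ^ 3 - C ((Y : R) ^ 3))).coeff (3 - i) ∈ Bx K ((Y : ℝ) ^ i / t)) ∧
    (∀ P : HeightOneSpectrum R, P ∈ T ∨ P ∈ T' → Zer P.asIdeal (f - g P)) ∧ Smooth f}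

/-- The twist of `f` by `d`, a polynomial over `K`: the coefficient `a_i` is multiplied by `d^i`; the
curve is `d y² = f(x)`. -/
noncomputable def tw (d : R) (f : R[X]) : K[X] := (f.scaleRoots d).map (algebraMap R K)

/-- The twists of the elements of `A` by the `d S`, `S` in `Half T`. -/
def Tw (T : Finset (HeightOneSpectrum R)) (d : Finset (HeightOneSpectrum R) → R) (A : Set R[X]) :
    Set K[X] :=
  {q | ∃ f ∈ A, ∃ S, Half T S ∧ q = tw K (d S) f}

/-- The law for the twists of the single polynomial `f`: the Selmer groups have `2^r` elements, `r` is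
even for exactly one half of the twists, and the distribution is the law of Poonen and Rains up to
`ε`. -/
def LawT (ε : ℝ) (T : Finset (HeightOneSpectrum R)) (d : Finset (HeightOneSpectrum R) → R)
    (f : R[X]) : Prop :=
  (∀ S, Half T S → ∃ r : ℕ, sel (tw K (d S) f) = 2 ^ r) ∧
  2 * {S | Half T S ∧ ∃ r : ℕ, Even r ∧ sel (tw K (d S) f) = 2 ^ r}.ncard =
    {S | Half T S}.ncard ∧
  Dist ε {S | Half T S} fun S => sel (tw K (d S) f)

/-- The law for the families given by the data, for all large heights; also for `a_1 = 0` if the data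
have trace zero. -/
def Law (ε : ℝ) (T T' : Finset (HeightOneSpectrum R)) (g : HeightOneSpectrum R → R[X])
    (d : Finset (HeightOneSpectrum R) → R) (E : ℕ) : Prop :=
  ∃ c : ℝ, 0 < c ∧ ∃ Y₀ : ℕ, ∀ Y : ℕ, Y₀ ≤ Y →
    PosL ε c (Tw K T d (Fam K T T' g 100 Y)) (All R K (2 * E * Y)) ∧
    ({f | f ∈ Fam K T T' g 100 Y ∧ ¬ LawT K ε T d f}.ncard : ℝ) ≤
      ε * (Fam K T T' g 100 Y).ncard ∧
    (Tr0 T T' g →
      PosL ε c (Tw K T d {f | f ∈ Fam K T T' g 200 Y ∧ f.coeff 2 = 0})
        {q | q ∈ All R K (2 * E * Y) ∧ q.coeff 2 = 0})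

end Ring

/-! ### Extensions of `K` -/

section Place

variable {K : Type} [Field K] (E : Type) [Field E] [Algebra K E]

/-- `L`, with the valuation ring `O`, is a completion of the extension `E` of `K` at a place above the
place of `K` with the valuation ring `V`. -/
def Abv (V : ValuationSubring K) {L : Type} [Field L] (O : ValuationSubring L) (ι : E →+* L) : Prop :=
  Cpl O ι ∧ O.comap (ι.comp (algebraMap K E)) = V

/-- The place `V` splits completely in `E`: every completion of `E` above `V` is a completion of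
`K`. -/
def Spl (V : ValuationSubring K) : Prop :=
  ∀ (L : Type) [Field L] (O : ValuationSubring L) (ι : E →+* L), Abv E V O ι →
    Cpl O (ι.comp (algebraMap K E))

/-- Every element of the maximal ideal of `O` is a multiple of an element of `K` in this ideal. -/
def UnrL {L : Type} [Field L] (O : ValuationSubring L) (j : K →+* L) : Prop :=
  ∀ z : L, z ∈ O → z⁻¹ ∉ O → ∃ x : K, j x ∈ O ∧ (j x)⁻¹ ∉ O ∧ z / j x ∈ O

/-- The place `V` is unramified in `E`. -/
def Unr (V : ValuationSubring K) : Prop :=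
  ∀ (L : Type) [Field L] (O : ValuationSubring L) (ι : E →+* L), Abv E V O ι →
    UnrL O (ι.comp (algebraMap K E))

end Place

section Ext

variable {R : Type} [CommRing R] [IsDedekindDomain R] (K : Type) [Field K] [Algebra R K]
  [IsFractionRing R K]

/-- The valuation ring of the place `P`. -/
noncomputable def vr (P : HeightOneSpectrum R) : ValuationSubring K := (P.valuation K).valuationSubring

variable (E : Type) [Field E] [Algebra K E]

variable (R) in
/-- `E` is a finite Galois extension of `K`, its degree is a power of two and the places above `2`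
split completely. -/
def Two : Prop :=
  FiniteDimensional K E ∧ IsGalois K E ∧ (∃ m : ℕ, Module.finrank K E = 2 ^ m) ∧
    ∀ P : HeightOneSpectrum R, (2 : R) ∈ P.asIdeal → Spl E (vr K P)

/-- Moreover the places of `T` split completely in `E`, and every other place is unramified in `E`
or `f` is irreducible modulo this place. -/
def Ext (T : Finset (HeightOneSpectrum R)) (f : R[X]) : Prop :=
  Two R K E ∧ (∀ P ∈ T, Spl E (vr K P)) ∧
    ∀ P : HeightOneSpectrum R, Unr E (vr K P) ∨ Irr P.asIdeal f

/-- The bounds for `y² = q(x)` over `K` and over all these extensions. -/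
def Ab (T : Finset (HeightOneSpectrum R)) (f : R[X]) (q : K[X]) (r : ℕ) : Prop :=
  Bd q r ∧ ∀ (E : Type) [Field E] [Algebra K E], Ext K E T f →
    Bd (q.map (algebraMap K E)) (r * Module.finrank K E)

/-- The polynomial `q` is irreducible, the 2-Selmer group over `K` has `2^r` elements, and the bounds
over `K`, over `E` and over all the extensions. -/
def Good (r : ℕ) (T : Finset (HeightOneSpectrum R)) (q : K[X]) : Prop :=
  Irreducible q ∧ sel q = 2 ^ r ∧ Bd (q.map (algebraMap K E)) (r * Module.finrank K E) ∧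
    ∀ f : R[X], f.map (algebraMap R K) = q → Ab K T f q r

end Ext

section Main

variable (R : Type) [CommRing R] [IsDedekindDomain R] (K : Type) [Field K] [Algebra R K]
  [IsFractionRing R K]

/-- The law up to `ε` for families of positive density, and the bounds over the extensions. -/
def Main : Prop :=
  ∃ A : Finset (HeightOneSpectrum R), ∀ T' : Finset (HeightOneSpectrum R), A ⊆ T' →
    ∀ ε : ℝ, 0 < ε → ∃ k₀ : ℕ, ∀ k : ℕ, Odd k → k₀ ≤ k → ∃ b : ℕ,
    (∀ (E : Type) [Field E] [Algebra K E], Two R K E →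
      (∀ P : HeightOneSpectrum R, P ∉ T' → Unr E (vr K P)) →
      ∃ (T : Finset (HeightOneSpectrum R)) (g : HeightOneSpectrum R → R[X]),
        Ok T T' g ∧ T.card = k ∧ (∀ P ∈ T, b < Nm P ∧ Spl E (vr K P)) ∧ Tr0 T T' g) ∧
    ∀ (T : Finset (HeightOneSpectrum R)) (g : HeightOneSpectrum R → R[X]),
      Ok T T' g → T.card = k → (∀ P ∈ T, b < Nm P) →
      (∃ d : Finset (HeightOneSpectrum R) → R, Tws T T' d) ∧
      ∀ d : Finset (HeightOneSpectrum R) → R, Tws T T' d →
        (∀ Y : ℕ, 1 ≤ Y → ∀ f ∈ Fam K T T' g 100 Y, ∀ S ⊆ T, ∀ r : ℕ,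
          sel (tw K (d S) f) = 2 ^ r → Ab K T f (tw K (d S) f) r) ∧
        ∀ E : ℕ, 1 ≤ E → (∀ S ⊆ T, d S ∈ Bx K (E : ℝ)) → Law K ε T T' g d E

/-- For every `r` and every extension `E` there is a finite set `T` of places which split completely
in `E` such that a positive proportion of all curves, ordered by height, is `Good`; also for the
curves with `a_1 = 0`. -/
def Ranks : Prop :=
  ∀ (r : ℕ) (E : Type) [Field E] [Algebra K E], Two R K E →
    ∃ T : Finset (HeightOneSpectrum R), (∀ P ∈ T, Spl E (vr K P)) ∧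
    ∃ δ : ℝ, 0 < δ ∧ ∃ Y₀ : ℝ, ∀ Y : ℝ, Y₀ ≤ Y → (All R K Y).Finite ∧
    0 < {q | q ∈ All R K Y ∧ q.coeff 2 = 0}.ncard ∧
    δ * (All R K Y).ncard ≤ {q | q ∈ All R K Y ∧ Good K E r T q}.ncard ∧
    δ * {q | q ∈ All R K Y ∧ q.coeff 2 = 0}.ncard ≤
      {q | (q ∈ All R K Y ∧ q.coeff 2 = 0) ∧ Good K E r T q}.ncard

end Main

end Pool.PNX
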